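import Pool.Agent.U190.AI.Main

/-!
# The Galois submodules of the transcendental Brauer group, for 100 percent of the primes `ℓ`, from an open
image of Galois at one prime

Let `k` be a field which is finitely generated over `ℚ`, `X` a smooth projective surface over `k`,
`T_ℓ` the transcendental part of `H^2(X̄, ℤ_ℓ(1))` (the orthogonal complement of `NS(X̄)`) and `N` its
rank, which does not depend on `ℓ`. The Galois group `G = Gal(k̄/k)` acts on `T_ℓ` and preserves the
intersection form `B_ℓ`, which is unimodular for almost all `ℓ`, and for almost all `ℓ` we have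
`Br(X̄)[ℓ^∞] = T_ℓ ⊗ ℚ_ℓ/ℤ_ℓ` and `T_ℓ ⊗ ℚ_ℓ = V_ℓ Br(X̄)` as representations of `G`. Let `K` be a number
field and `s : G_K → G` the homomorphism given by a closed point of the generic fibre of a model of `X`
(if `k` is a number field, then `K = k` and `s` is the identity). At the places `v` of `K` of good
reduction (`v ∉ S`) the characteristic polynomial `P_v` of the geometric Frobenius on `T_ℓ` has rational
coefficients and does not depend on `ℓ` (Deligne).

**Theorem.** Let `N ≥ 5` be odd. Suppose that for ONE prime number `ℓ₀` which does not divide `N - 1` the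
Lie algebra of the image of `G_K` in the orthogonal group of `T_ℓ₀ ⊗ ℚ_ℓ₀` is the full orthogonal Lie
algebra. Then for every `d`, for all prime numbers `ℓ` outside a set of natural density zero,

* the group ring `ℤ_ℓ[U]` of every subgroup `U` of `G` of index at most `d` maps ONTO the ring of all
  endomorphisms of the lattice `T_ℓ`;
* the image of `G_K` in the orthogonal group of `T_ℓ ⊗ ℚ_ℓ` is open;
* no non-zero vector of `T_ℓ ⊗ ℚ_ℓ` is fixed by an open subgroup of `G_K`.

So for 100 percent of the primes `ℓ` and for all extensions `k'` of `k` of degree at most `d`: the only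
`G_{k'}`-submodules of `Br(X̄)[ℓ^∞]` are the groups `Br(X̄)[ℓ^m]` and the whole group, the endomorphisms of
`Br(X̄)[ℓ^m]` over `k'` are the multiplications by integers, all groups `Br(X̄)[ℓ]` are absolutely
irreducible, the only `G_{k'}`-stable lattices in `V_ℓ Br(X̄)` are the multiples of `T_ℓ`, and
`(V_ℓ Br(X̄))^{G_{k''}} = 0` for ALL finite extensions `k''` of `k`, which is the Tate conjecture for
divisors on `X` over `k''` at `ℓ`.

The theorem `BrauerTorsionDensityOne` of this problem in the starting repository shows, from conditions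
on Frobenius polynomials, that no subquotient of `T_ℓ / ℓ` is fixed by a subgroup of index at most `d`.
Here the hypothesis is on the image at one prime number, no Frobenius polynomial has to be known, and
the conclusion is on all submodules of all `Br(X̄)[ℓ^m]`.

## Proof

The theorem `irr_mod_one` of the starting repository (by helper932 and others, not used there) gives
irreducibility of `T_ℓ / ℓ` over all subgroups of index at most `d`, and its theorem `orth_one` the open
image. New is the passage to the group ring (`Pool/Agent/U190/AI`). There is a place `v` at which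
`P_v = (X - 1) Q_v` is separable and different roots of `P_v` have different powers. For large `ℓ` the
subspaces of `T_ℓ / ℓ` stable under the power `d!` of the Frobenius element `g` at `v` are stable under
`g`; hence the vectors fixed by `g ^ d!` form the line of the vectors fixed by `g`. The power `g ^ d!`
belongs to all subgroups `U` of index at most `d`. So every endomorphism of `T_ℓ / ℓ` commuting with `U`
has an eigenvector with eigenvalue in `𝔽_ℓ` and is a scalar by irreducibility, the density theorem of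
Jacobson shows that `𝔽_ℓ[U]` maps onto the matrix algebra, and the lemma of Nakayama gives the same for
`ℤ_ℓ[U]`.
-/

set_option autoImplicit false

namespace Pool.Agent.Results.MP_89bcae_ag.GaloisSubmodules

open Matrix Polynomial Filter Topology NumberField IsDedekindDomain

/-- the absolute Galois group of `K`, with its profinite (Krull) topology -/
abbrev AbsoluteGaloisGroup (K : Type) [Field K] : Type := Gal(AlgebraicClosure K/K)

/-- `σ` is an (arithmetic) Frobenius element at the prime `v` of the number field `K`: for some prime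
`Q` of the algebraic closure above `v` it acts on the residue field as `x ↦ x ^ N(v)` -/
def IsFrobenius {K : Type} [Field K] [NumberField K] (v : HeightOneSpectrum (𝓞 K))
    (σ : AbsoluteGaloisGroup K) : Prop :=
  ∃ Q : Ideal (𝓞 (AlgebraicClosure K)), Q.IsMaximal ∧
    Q.comap (algebraMap (𝓞 K) (𝓞 (AlgebraicClosure K))) = v.asIdeal ∧
    ∀ x : 𝓞 (AlgebraicClosure K), σ • x - x ^ Ideal.absNorm v.asIdeal ∈ Q

/-- `β` is a representation of the group `G` on the lattice `ℤ_ℓ ^ N` which preserves the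
nondegenerate symmetric form with the matrix `B`, it is continuous on `G_K` (along `s`), and for all
`v ∉ S` which are prime to `ℓ` the characteristic polynomial of (the image under `s` of) the geometric
Frobenius elements `σ⁻¹` (`σ` arithmetic) at `v` is `P v` -/
def IsLatticeSystem (K : Type) [Field K] [NumberField K] {G : Type} [Group G]
    (s : AbsoluteGaloisGroup K →* G) (N : ℕ)
    (S : Set (HeightOneSpectrum (𝓞 K))) (P : HeightOneSpectrum (𝓞 K) → ℚ[X]) (ℓ : ℕ)
    [Fact ℓ.Prime] (β : G →* Matrix (Fin N) (Fin N) ℤ_[ℓ]) (B : Matrix (Fin N) (Fin N) ℤ_[ℓ]) :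
    Prop :=
  Continuous (fun σ : AbsoluteGaloisGroup K => β (s σ)) ∧ Bᵀ = B ∧ B.det ≠ 0 ∧
    (∀ g, (β g)ᵀ * B * β g = B) ∧
    ∀ v ∉ S, (ℓ : 𝓞 K) ∉ v.asIdeal → ∀ σ : AbsoluteGaloisGroup K, IsFrobenius v σ →
      (β (s σ⁻¹)).charpoly.map (algebraMap ℤ_[ℓ] ℚ_[ℓ]) = (P v).map (algebraMap ℚ ℚ_[ℓ])

/-- the matrix over the `ℓ`-adic numbers -/
noncomputable def rationalised (ℓ : ℕ) [Fact ℓ.Prime] {N : ℕ} (A : Matrix (Fin N) (Fin N) ℤ_[ℓ]) :
    Matrix (Fin N) (Fin N) ℚ_[ℓ] :=
  A.map (algebraMap ℤ_[ℓ] ℚ_[ℓ])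

/-- every matrix `X` which is skew-adjoint for the form `B` is in the Lie algebra of the image of
`G_K`: it is the limit of `(β (s (σ n)) - 1) / ℓ ^ n` for elements `σ n` of `G_K` -/
def HasFullLieAlgebra {K : Type} [Field K] {G : Type} [Group G]
    (s : AbsoluteGaloisGroup K →* G) {N : ℕ} (ℓ : ℕ) [Fact ℓ.Prime]
    (β : G →* Matrix (Fin N) (Fin N) ℤ_[ℓ]) (B : Matrix (Fin N) (Fin N) ℤ_[ℓ]) : Prop :=
  ∀ X : Matrix (Fin N) (Fin N) ℚ_[ℓ], (rationalised ℓ B * X)ᵀ = -(rationalised ℓ B * X) →
    ∃ σ : ℕ → AbsoluteGaloisGroup K,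
      Tendsto (fun n : ℕ => ((ℓ : ℚ_[ℓ]) ^ n)⁻¹ • (rationalised ℓ (β (s (σ n))) - 1)) atTop (𝓝 X)

/-- the image of `G_K` contains a neighbourhood of `1` in the orthogonal group of `B` over the `ℓ`-adic
numbers -/
def HasOpenImage {K : Type} [Field K] {G : Type} [Group G]
    (s : AbsoluteGaloisGroup K →* G) {N : ℕ} (ℓ : ℕ) [Fact ℓ.Prime]
    (β : G →* Matrix (Fin N) (Fin N) ℤ_[ℓ]) (B : Matrix (Fin N) (Fin N) ℤ_[ℓ]) : Prop :=
  ∃ ε : ℝ, 0 < ε ∧ ∀ g : Matrix (Fin N) (Fin N) ℚ_[ℓ],
    gᵀ * rationalised ℓ B * g = rationalised ℓ B → (∀ i j, ‖(g - 1) i j‖ < ε) →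
      ∃ σ : AbsoluteGaloisGroup K, rationalised ℓ (β (s σ)) = g

/-- for every subgroup `U` of `G` of (finite) index at most `d` all matrices over `ℤ_ℓ` are
`ℤ_ℓ`-linear combinations of the matrices `β σ`, `σ ∈ U`: the group ring of `U` over `ℤ_ℓ` maps onto the
endomorphism ring of the lattice `ℤ_ℓ ^ N` -/
def GroupRingIsFull {G : Type} [Group G] {N : ℕ} (ℓ d : ℕ) [Fact ℓ.Prime]
    (β : G →* Matrix (Fin N) (Fin N) ℤ_[ℓ]) : Prop :=
  ∀ U : Subgroup G, U.index ≠ 0 → U.index ≤ d → Submodule.span ℤ_[ℓ] (β '' (U : Set G)) = ⊤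

/-- no non-zero vector of `ℚ_ℓ ^ N` is fixed by an open subgroup of `G_K` -/
def HasNoTateClass {K : Type} [Field K] {G : Type} [Group G]
    (s : AbsoluteGaloisGroup K →* G) {N : ℕ} (ℓ : ℕ) [Fact ℓ.Prime]
    (β : G →* Matrix (Fin N) (Fin N) ℤ_[ℓ]) : Prop :=
  ∀ U : Subgroup (AbsoluteGaloisGroup K), IsOpen (U : Set (AbsoluteGaloisGroup K)) →
    ∀ w : Fin N → ℚ_[ℓ], (∀ σ ∈ U, rationalised ℓ (β (s σ)) *ᵥ w = w) → w = 0

/-- the set `A` of prime numbers has natural density zero -/
def HasDensityZero (A : Set ℕ) : Prop :=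
  Tendsto (fun n : ℕ => (Nat.card {ℓ : ℕ // ℓ ≤ n ∧ ℓ ∈ A} : ℝ) / (Nat.primeCounting n : ℝ))
    atTop (𝓝 0)

/-- **All Galois submodules of the Brauer group over all extensions of degree at most `d`, open image and
the Tate conjecture, for 100 percent of the primes `ℓ`, from one prime number with full Lie algebra.** -/
theorem result (K : Type) [Field K] [NumberField K] (G : Type) [Group G]
    (s : AbsoluteGaloisGroup K →* G) (N : ℕ) (hN : Odd N) (hN5 : 5 ≤ N)
    (S : Set (HeightOneSpectrum (𝓞 K))) (hS : S.Finite) (P : HeightOneSpectrum (𝓞 K) → ℚ[X])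
    (β : ∀ (ℓ : ℕ) [Fact ℓ.Prime], G →* Matrix (Fin N) (Fin N) ℤ_[ℓ])
    (B : ∀ (ℓ : ℕ) [Fact ℓ.Prime], Matrix (Fin N) (Fin N) ℤ_[ℓ])
    (hβ : ∀ (ℓ : ℕ) [Fact ℓ.Prime], IsLatticeSystem K s N S P ℓ (β ℓ) (B ℓ))
    (hB : ∃ b : ℕ, ∀ (ℓ : ℕ) [Fact ℓ.Prime], b < ℓ → IsUnit (B ℓ).det)
    (ℓ₀ : ℕ) [Fact ℓ₀.Prime] (hℓ₀ : ¬ ℓ₀ ∣ N - 1) (hfull : HasFullLieAlgebra s ℓ₀ (β ℓ₀) (B ℓ₀))
    (d : ℕ) :
    HasDensityZero {ℓ | ∃ _ : Fact ℓ.Prime, ¬ (GroupRingIsFull ℓ d (β ℓ) ∧
      HasOpenImage s ℓ (β ℓ) (B ℓ) ∧ HasNoTateClass s ℓ (β ℓ))} := by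
  have h := Pool.Agent.U190.AI.full_one K G s N hN hN5 S hS P β B hβ hB ℓ₀ hℓ₀ hfull d
  refine Y142.ZI.DensityZero.mono h ?_
  rintro ℓ ⟨hp, hno⟩
  exact ⟨hp, hno⟩

end Pool.Agent.Results.MP_89bcae_ag.GaloisSubmodules
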