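import Pool.Agent.U407.PF8
import Pool.Agent.U407.PF9

/-!
# Tate classes on the surfaces `(y^p - y) x = f(x, t)` over finite fields: normal order, average, and
# a positive proportion of surfaces for which the Tate conjecture holds on all Artin–Schreier
# pullbacks

Let `k` be the field with `q = p^s` elements, `a ≥ 2` and `b ≥ 1` coprime with `b (a - 1)` dividing
`p - 1`. We consider the family of all the surfaces

  `U : (y^p - y) x = f(x, t)`, `x ≠ 0`,  `f = u Φ(t) + w x^a + ∑_{(i, j) ∈ D} φ_{i, j} x^i t^j`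

with arbitrary `u, w ≠ 0`, `Φ = t^b + Φ_{b-1} t^{b-1} + ⋯ + Φ_0` and `φ_{i, j}` in `k`; here `D` is a
fixed finite set of exponents inside the triangle, `i ≥ 1` and `b i + a j < a b`. Let
`C : z_l^p - z_l = h_l(t)`, `l < r`, with `a deg h_l ≤ b (a - 1)`, be any tower of Artin–Schreier
curves over the `t`-line and `U_C = U ×_{𝔸¹} C` the pullback. The polynomial

  `L(T) = exp (∑_{n ≥ 1} ((q^n - 1) #C(F_{q^n}) - #U_C(F_{q^n})) T^n / n)`,

the quotient of the zeta functions of `𝔾_m × C` and of `U_C`, is the characteristic polynomial of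
Frobenius on the nontrivial part of `H²_c(U_C)`, and the order `ρ` of its zero at `T = 1 / q` is the
number of the eigenvalues equal to `q`. The trivial part comes from `𝔾_m × C` and a smooth
compactification adds the components of the boundary, for which the Tate conjecture is known. So the
Tate conjecture for divisors says that `ρ` is the rank of the classes of the nontrivial part; if
`ρ = 0`, it holds for the smooth compactification of `U_C`.

By `MP_1d384c_nt.SimplePole` (built on the starting library), `ρ ≤ p^r (p - 1) (e - 1)` if `Φ` is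
squarefree with `e` irreducible factors. Here we treat the whole family, for every `q`, with
`H = 1 + 1/2 + ⋯ + 1/b`, which is `log b + O(1)`, while the dimension of the nontrivial part grows
like a power of the size of the triangle:

* normal order: for every `λ > 0`, outside a proportion `H / λ² + 2 / q` of the family,
  `ρ ≤ p^r (p - 1) (H + λ - 1)` for all `C` at once;
* average: the average of `ρ` over the members with squarefree `Φ` (a proportion of at least
  `1 - 2 / q`), where `C` may vary with the member, is at most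
  `p^r (p - 1) (H / (1 - 2 / q) - 1)`;
* for a proportion of at least `1 / b - 1 / q` of all the members `L(1/q) ≠ 0` for all `C` at once, so
  that the Tate conjecture for divisors holds for (a smooth compactification of) `U_C` for all `C`,
  and the `p`-adic valuation of `L(1/q)` is exactly `-s p^r (p - 1) hodge`.

The proof is the second moment method for the number of the irreducible factors of `Φ`.
-/

set_option autoImplicit false

namespace Pool.Agent.Results.MP_89bcae_ag.NormalOrderOfTateClasses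

open Polynomial

/-- The sum of `1 - (b i + a j) / M`, `M = b (a - 1)`, over all pairs `(i, j)` of integers with
`i ≥ 0`, `j > 0` and `b i + a j < M`. -/
noncomputable def hodge (a b : ℕ) : ℚ :=
  ∑ i ∈ Finset.range (b * (a - 1)), ∑ j ∈ Finset.range (b * (a - 1)),
    if 0 < j ∧ b * i + a * j < b * (a - 1) then
      1 - ((b * i + a * j : ℕ) : ℚ) / ((b * (a - 1) : ℕ) : ℚ) else 0

/-- The members of the family: `(u, w)`, the coefficients `Φ_0, …, Φ_{b-1}` and the coefficients `φ`
at the exponents in `D`. -/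
abbrev Member (k : Type) [Field k] (b : ℕ) (D : Finset (ℕ × ℕ)) : Type :=
  (kˣ × kˣ) × (Fin b → k) × (D → k)

/-- `Φ = X^b + ∑_{i < b} Φ_i X^i`. -/
noncomputable def residue {k : Type} [Field k] {b : ℕ} {D : Finset (ℕ × ℕ)} (m : Member k b D) :
    k[X] :=
  X ^ b + ∑ i : Fin b, C (m.2.1 i) * X ^ (i : ℕ)

/-- `f = u Φ(t) + w x^a + ∑_{(i, j) ∈ D} φ_{i, j} x^i t^j` (outer variable `x`, inner
variable `t`). -/
noncomputable def poly {k : Type} [Field k] (a : ℕ) {b : ℕ} {D : Finset (ℕ × ℕ)}
    (m : Member k b D) : k[X][X] :=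
  C (C (m.1.1 : k) * residue m) + monomial a (C (m.1.2 : k)) +
    ∑ d : D, monomial d.1.1 (monomial d.1.2 (m.2.2 d))

/-- The proportion of the members of the family with a property. -/
noncomputable def proportion {k : Type} [Field k] {b : ℕ} {D : Finset (ℕ × ℕ)}
    (Q : Member k b D → Prop) : ℚ :=
  (Nat.card {m // Q m} : ℚ) / Nat.card (Member k b D)

/-- The average of a function over the members of the family with a property. -/
noncomputable def average {k : Type} [Field k] {b : ℕ} {D : Finset (ℕ × ℕ)}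
    (Q : Member k b D → Prop) (F : Member k b D → ℚ) : ℚ :=
  (∑ᶠ m : {m // Q m}, F m.1) / Nat.card {m // Q m}

/-- The value `h(t)` at an element `t` of an algebraic closure of `k`. -/
noncomputable def baseValue {k : Type} [Field k] (h : k[X]) (t : AlgebraicClosure k) :
    AlgebraicClosure k :=
  h.eval₂ (algebraMap k (AlgebraicClosure k)) t

/-- The value `f(x, t)` at a point with coordinates in an algebraic closure of `k`. -/
noncomputable def value {k : Type} [Field k] (f : k[X][X]) (t x : AlgebraicClosure k) :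
    AlgebraicClosure k :=
  f.eval₂ (eval₂RingHom (algebraMap k (AlgebraicClosure k)) t) x

/-- The number of the points of `C` over `F_Q = {z : z^Q = z}`: the `(t, z_1, …, z_r)` with
coordinates in `F_Q` such that `z_l^p - z_l = h_l(t)` for all `l`. -/
noncomputable def curvePoints {k : Type} [Field k] (p : ℕ) {r : ℕ} (h : Fin r → k[X]) (Q : ℕ) :
    ℕ :=
  Nat.card {v : AlgebraicClosure k × (Fin r → AlgebraicClosure k) //
    v.1 ^ Q = v.1 ∧ (∀ l, v.2 l ^ Q = v.2 l) ∧ ∀ l, v.2 l ^ p - v.2 l = baseValue (h l) v.1}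

/-- The number of the points of `U_C` over `F_Q`: the `(t, x, y, z_1, …, z_r)` with coordinates in
`F_Q` such that `x ≠ 0`, `(y^p - y) x = f(x, t)` and `z_l^p - z_l = h_l(t)` for all `l`. -/
noncomputable def surfacePoints {k : Type} [Field k] (p : ℕ) {r : ℕ} (f : k[X][X])
    (h : Fin r → k[X]) (Q : ℕ) : ℕ :=
  Nat.card {v : AlgebraicClosure k × AlgebraicClosure k × AlgebraicClosure k ×
      (Fin r → AlgebraicClosure k) //
    v.1 ^ Q = v.1 ∧ v.2.1 ^ Q = v.2.1 ∧ v.2.1 ≠ 0 ∧ v.2.2.1 ^ Q = v.2.2.1 ∧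
    (∀ l, v.2.2.2 l ^ Q = v.2.2.2 l) ∧
    (v.2.2.1 ^ p - v.2.2.1) * v.2.1 = value f v.1 v.2.1 ∧
    ∀ l, v.2.2.2 l ^ p - v.2.2.2 l = baseValue (h l) v.1}

/-- The power series `∑_{n ≥ 1} ((q^n - 1) #C(F_{q^n}) - #U_C(F_{q^n})) T^n`, `q = #k`. -/
noncomputable def traces {k : Type} [Field k] [Fintype k] (p : ℕ) {r : ℕ} (f : k[X][X])
    (h : Fin r → k[X]) : PowerSeries ℚ :=
  PowerSeries.mk fun n => if n = 0 then 0 else
    (((Fintype.card k : ℚ) ^ n - 1) * (curvePoints p h (Fintype.card k ^ n) : ℚ) -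
      (surfacePoints p f h (Fintype.card k ^ n) : ℚ))

/-- `L` is the quotient of the zeta functions of `𝔾_m × C` and `U_C`: `L(0) = 1` and `T L' / L` is
the power series `traces`. -/
def IsZetaQuotient {k : Type} [Field k] [Fintype k] (p : ℕ) {r : ℕ} (f : k[X][X])
    (h : Fin r → k[X]) (L : ℚ[X]) : Prop :=
  L.coeff 0 = 1 ∧
    PowerSeries.X * PowerSeries.derivative ℚ (L : PowerSeries ℚ) =
      (L : PowerSeries ℚ) * traces p f h

/-- `T = 1 / q` is a zero of multiplicity `ρ` of `L`: `L = (1 - q T)^ρ M` with `M(1/q) ≠ 0`. -/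
def HasMultiplicity (q : ℕ) (L : ℚ[X]) (ρ : ℕ) : Prop :=
  ∃ M : ℚ[X], L = (1 - C (q : ℚ) * X) ^ ρ * M ∧ M.eval (1 / (q : ℚ)) ≠ 0

section lemmas

open Pool.Agent.N867.AS Pool.Agent.N867.AS.Tow Pool.Agent.N867.AS.Lau Pool.Agent.U407
  UniqueFactorizationMonoid

variable {k : Type} [Field k]

theorem coeff_poly {a b : ℕ} {D : Finset (ℕ × ℕ)} (m : Member k b D) (i : ℕ) :
    (poly a m).coeff i = (if i = 0 then C (m.1.1 : k) * residue m else 0) +
      (if a = i then C (m.1.2 : k) else 0) +
      ∑ d : D, if d.1.1 = i then monomial d.1.2 (m.2.2 d) else 0 := by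
  unfold poly
  rw [coeff_add, coeff_add, coeff_C, coeff_monomial, finsetSum_coeff]
  congr 1
  exact Finset.sum_congr rfl fun d _ => coeff_monomial

theorem poly_wt {a b : ℕ} {D : Finset (ℕ × ℕ)}
    (hD : ∀ d ∈ D, 1 ≤ d.1 ∧ b * d.1 + a * d.2 < a * b)
    (m : Member k b D) (i j : ℕ) (h : ((poly a m).coeff i).coeff j ≠ 0) :
    b * i + a * j ≤ a * b := by
  rw [coeff_poly, coeff_add, coeff_add, finsetSum_coeff] at h
  by_cases h1 : (∑ d : D, (if d.1.1 = i then monomial d.1.2 (m.2.2 d) else 0 : k[X]).coeff j) = 0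
  · rw [h1, add_zero] at h
    by_cases h2 : (if a = i then C (m.1.2 : k) else 0 : k[X]).coeff j = 0
    · rw [h2, add_zero] at h
      split_ifs at h with h3
      · have h4 := le_natDegree_of_ne_zero h
        have h5 : (C (m.1.1 : k) * residue m).natDegree = b := by
          rw [natDegree_C_mul m.1.1.ne_zero]
          exact PF.mon_natDegree _
        rw [h5] at h4
        rw [h3, mul_zero, zero_add]
        exact Nat.mul_le_mul_left _ h4
      · rw [coeff_zero] at h
        exact absurd rfl h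
    · split_ifs at h2 with h3
      · rw [coeff_C] at h2
        split_ifs at h2 with h4
        · rw [h4, ← h3, mul_zero, add_zero, mul_comm]
        · exact absurd rfl h2
      · rw [coeff_zero] at h2
        exact absurd rfl h2
  · obtain ⟨d, -, hd⟩ := Finset.exists_ne_zero_of_sum_ne_zero h1
    split_ifs at hd with h3
    · rw [coeff_monomial] at hd
      split_ifs at hd with h4
      · rw [← h3, ← h4]
        exact (hD d.1 d.2).2.le
      · exact absurd rfl hd
    · rw [coeff_zero] at hd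
      exact absurd rfl hd

theorem poly_corner {a b : ℕ} (ha : 2 ≤ a) {D : Finset (ℕ × ℕ)}
    (hD : ∀ d ∈ D, 1 ≤ d.1 ∧ b * d.1 + a * d.2 < a * b) (m : Member k b D) :
    ((poly a m).coeff a).coeff 0 ≠ 0 := by
  rw [coeff_poly, if_neg (by omega), if_pos rfl, zero_add, Finset.sum_eq_zero, add_zero,
    coeff_C_zero]
  · exact m.1.2.ne_zero
  · intro d _
    refine if_neg fun h => ?_
    have h1 := (hD d.1 d.2).2
    rw [h, mul_comm b a] at h1
    omega

theorem poly_top {a b : ℕ} (ha : 2 ≤ a) {D : Finset (ℕ × ℕ)}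
    (hD : ∀ d ∈ D, 1 ≤ d.1 ∧ b * d.1 + a * d.2 < a * b) (m : Member k b D) :
    (poly a m).coeff 0 = C (m.1.1 : k) * residue m := by
  rw [coeff_poly, if_pos rfl, if_neg (by omega), add_zero, Finset.sum_eq_zero, add_zero]
  intro d _
  refine if_neg fun h => ?_
  have h1 := (hD d.1 d.2).1
  omega

theorem points_eq (p : ℕ) {r : ℕ} (f : k[X][X]) (h : Fin r → k[X]) (Q : ℕ) :
    surfacePoints p f h Q = NDL p (fun _ : Fin 1 => f) h Q := by
  unfold surfacePoints NDL
  refine Nat.card_congr
    { toFun := fun v => ⟨(v.1.1, v.1.2.1, fun _ => v.1.2.2.1, v.1.2.2.2),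
        v.2.1, v.2.2.1, v.2.2.2.1, fun _ => v.2.2.2.2.1, v.2.2.2.2.2.1,
        fun _ => v.2.2.2.2.2.2.1, v.2.2.2.2.2.2.2⟩
      invFun := fun v => ⟨(v.1.1, v.1.2.1, v.1.2.2.1 0, v.1.2.2.2),
        v.2.1, v.2.2.1, v.2.2.2.1, v.2.2.2.2.1 0, v.2.2.2.2.2.1, v.2.2.2.2.2.2.1 0,
        v.2.2.2.2.2.2.2⟩
      left_inv := fun v => rfl
      right_inv := fun v => ?_ }
  apply Subtype.ext
  refine Prod.ext rfl (Prod.ext rfl (Prod.ext ?_ rfl))
  funext j
  rw [Subsingleton.elim j 0]

variable [Fintype k]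

theorem pointwise (p : ℕ) (hp : p.Prime) [CharP k p] (s : ℕ) (hs : Fintype.card k = p ^ s)
    (a b : ℕ) (ha : 2 ≤ a) (hb : 1 ≤ b) (hab : a.Coprime b) (hMp : b * (a - 1) ∣ p - 1)
    (D : Finset (ℕ × ℕ)) (hD : ∀ d ∈ D, 1 ≤ d.1 ∧ b * d.1 + a * d.2 < a * b) (m : Member k b D)
    (hm : Squarefree (residue m)) (r : ℕ) (h : Fin r → k[X])
    (hh : ∀ l, a * (h l).natDegree ≤ b * (a - 1))
    (L : ℚ[X]) (hL : IsZetaQuotient p (poly a m) h L) (ρ : ℕ) (M : ℚ[X])
    (hLM : L = (1 - C (Fintype.card k : ℚ) * X) ^ ρ * M)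
    (hM : M.eval (1 / (Fintype.card k : ℚ)) ≠ 0) :
    ρ ≤ p ^ r * (p - 1) * ((factors (PF.mon m.2.1)).card - 1) ∧
      ((padicValRat p (M.eval (1 / (Fintype.card k : ℚ))) : ℚ) =
        -((s * (p ^ r * (p - 1)) : ℕ) : ℚ) * hodge a b ↔
        ρ = p ^ r * (p - 1) * ((factors (PF.mon m.2.1)).card - 1)) := by
  have hL2 := hL.2
  unfold traces at hL2
  simp only [points_eq] at hL2
  obtain ⟨h1, -, h3⟩ := PF.onePole p hp s hs r a b ha hb hab hMp m.1.1 m.1.1.ne_zero (residue m)
    (PF.mon_monic _) (PF.mon_natDegree _) hm (poly a m) (poly_wt hD m) (poly_corner ha hD m)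
    (poly_top ha hD m) h hh L hL.1 hL2 ρ M hLM hM
  exact ⟨h1, h3⟩

end lemmas

/-- Let `k` be the field with `q = p^s` elements, `a ≥ 2` and `b ≥ 1` coprime, `b (a - 1)` a divisor
of `p - 1`, `D` a finite set of exponents with `i ≥ 1` and `b i + a j < a b`, and
`H = 1 + 1/2 + ⋯ + 1/b`. For a member `m = (u, w, Φ, φ)` of the family and polynomials `h_1, …, h_r`
with `a deg h_l ≤ b (a - 1)` let `L` be the quotient of the zeta functions of `𝔾_m × C` and of the
surface `U_C`, and `ρ` the multiplicity of its zero `T = 1 / q`. Then: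

(1) for every `λ > 0`, for a proportion of at least `1 - H / λ² - 2 / q` of the members
`ρ ≤ p^r (p - 1) (H + λ - 1)` holds for all `r` and all `h_1, …, h_r`;

(2) a proportion of at least `1 - 2 / q` of the members has squarefree `Φ`, and if `q > 2`, then the
average of `ρ` over these members, where the `h_l` may depend on the member, is at most
`p^r (p - 1) (H / (1 - 2 / q) - 1)`;

(3) for a proportion of at least `1 / b - 1 / q` of the members `L(1/q) ≠ 0` and
`v_p(L(1/q)) = -s p^r (p - 1) hodge` hold for all `r` and all `h_1, …, h_r`. -/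
theorem result (p : ℕ) (hp : p.Prime) (k : Type) [Field k] [Fintype k] [CharP k p] (s : ℕ)
    (hs : Fintype.card k = p ^ s) (a b : ℕ) (ha : 2 ≤ a) (hb : 1 ≤ b) (hab : a.Coprime b)
    (hMp : b * (a - 1) ∣ p - 1) (D : Finset (ℕ × ℕ))
    (hD : ∀ d ∈ D, 1 ≤ d.1 ∧ b * d.1 + a * d.2 < a * b) :
    (∀ t : ℚ, 0 < t → 1 - (∑ i ∈ Finset.Icc 1 b, (1 : ℚ) / i) / t ^ 2 - 2 / Fintype.card k ≤
      proportion (fun m : Member k b D => ∀ (r : ℕ) (h : Fin r → k[X]) (L : ℚ[X]) (ρ : ℕ),
        (∀ l, a * (h l).natDegree ≤ b * (a - 1)) → IsZetaQuotient p (poly a m) h L →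
        HasMultiplicity (Fintype.card k) L ρ →
          (ρ : ℚ) ≤ ((p ^ r * (p - 1) : ℕ) : ℚ) *
            ((∑ i ∈ Finset.Icc 1 b, (1 : ℚ) / i) + t - 1))) ∧
    1 - 2 / (Fintype.card k : ℚ) ≤ proportion (fun m : Member k b D => Squarefree (residue m)) ∧
    (2 < Fintype.card k →
      ∀ (r : ℕ) (h : Member k b D → Fin r → k[X]) (L : Member k b D → ℚ[X])
        (ρ : Member k b D → ℕ),
        (∀ m l, a * (h m l).natDegree ≤ b * (a - 1)) →
        (∀ m, Squarefree (residue m) → IsZetaQuotient p (poly a m) (h m) (L m) ∧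
          HasMultiplicity (Fintype.card k) (L m) (ρ m)) →
        average (fun m => Squarefree (residue m)) (fun m => (ρ m : ℚ)) ≤
          ((p ^ r * (p - 1) : ℕ) : ℚ) * ((∑ i ∈ Finset.Icc 1 b, (1 : ℚ) / i) /
            (1 - 2 / (Fintype.card k : ℚ)) - 1)) ∧
    1 / (b : ℚ) - 1 / Fintype.card k ≤
      proportion (fun m : Member k b D => ∀ (r : ℕ) (h : Fin r → k[X]) (L : ℚ[X]),
        (∀ l, a * (h l).natDegree ≤ b * (a - 1)) → IsZetaQuotient p (poly a m) h L →
          L.eval (1 / (Fintype.card k : ℚ)) ≠ 0 ∧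
          (padicValRat p (L.eval (1 / (Fintype.card k : ℚ))) : ℚ) =
            -((s * (p ^ r * (p - 1)) : ℕ) : ℚ) * hodge a b) := by
  have hpos : ∀ (Φ : k[X]), Φ.Monic → Φ.natDegree = b →
      1 ≤ (UniqueFactorizationMonoid.factors Φ).card := by
    intro Φ hΦ hd
    by_contra h11
    have h12 : UniqueFactorizationMonoid.factors Φ = 0 := by
      rw [← Multiset.card_eq_zero]
      omega
    have h13 := UniqueFactorizationMonoid.factors_prod (a := Φ) hΦ.ne_zero
    rw [h12, Multiset.prod_zero] at h13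
    have h14 := natDegree_eq_of_degree_eq (degree_eq_degree_of_associated h13)
    rw [natDegree_one, hd] at h14
    omega
  have hcast : ∀ (K : ℕ) (m : Member k b D) (ρ : ℕ),
      ρ ≤ K * ((UniqueFactorizationMonoid.factors (Pool.Agent.U407.PF.mon m.2.1)).card - 1) →
      (ρ : ℚ) ≤ (K : ℚ) *
        (((UniqueFactorizationMonoid.factors (Pool.Agent.U407.PF.mon m.2.1)).card : ℚ) - 1) := by
    intro K m ρ h
    have h1 := hpos _ (Pool.Agent.U407.PF.mon_monic m.2.1) (Pool.Agent.U407.PF.mon_natDegree m.2.1)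
    have h2 : (ρ : ℚ) ≤ ((K * ((UniqueFactorizationMonoid.factors
        (Pool.Agent.U407.PF.mon m.2.1)).card - 1) : ℕ) : ℚ) := by exact_mod_cast h
    rw [Nat.cast_mul, Nat.cast_sub h1, Nat.cast_one] at h2
    exact h2
  have hq := Pool.Agent.U407.PF.q_pos (κ := k)
  rw [← Nat.card_eq_fintype_card (α := k)]
  rw [← Nat.card_eq_fintype_card (α := k)] at hs
  have hpw := fun (m : Member k b D) (hm : Squarefree (residue m)) (r : ℕ) (h : Fin r → k[X])
      (hh : ∀ l, a * (h l).natDegree ≤ b * (a - 1)) (L : ℚ[X])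
      (hL : IsZetaQuotient p (poly a m) h L) (ρ : ℕ) (M : ℚ[X]) hLM hM =>
    pointwise p hp s (by rw [← Nat.card_eq_fintype_card]; exact hs) a b ha hb hab hMp D hD m hm r
      h hh L hL ρ M hLM hM
  rw [← Nat.card_eq_fintype_card (α := k)] at hpw
  refine ⟨fun t ht => ?_, ?_, fun h2q r h L ρ hh hL => ?_, ?_⟩
  · refine (Pool.Agent.U407.PF.card_few (κ := k) hb ht).trans ?_
    rw [← Pool.Agent.U407.PF.proportion_mid (A := kˣ × kˣ) (B := D → k)]
    refine Pool.Agent.U407.PF.proportion_le fun m hm r h L ρ hh hL hρ => ?_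
    obtain ⟨M, hLM, hM⟩ := hρ
    have h1 := hcast _ m ρ (hpw m hm.1 r h hh L hL ρ M hLM hM).1
    refine h1.trans (mul_le_mul_of_nonneg_left ?_ (Nat.cast_nonneg _))
    have h2 := hm.2
    linarith
  · have h1 := Pool.Agent.U407.PF.card_sqf (κ := k) hb
    have h2 : proportion (fun m : Member k b D => Squarefree (residue m)) =
        (Nat.card {α : Fin b → k // Squarefree (Pool.Agent.U407.PF.mon α)} : ℚ) /
          Nat.card (Fin b → k) :=
      Pool.Agent.U407.PF.proportion_mid (A := kˣ × kˣ) (B := D → k)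
        (fun α : Fin b → k => Squarefree (Pool.Agent.U407.PF.mon α))
    rw [h2, Pool.Agent.U407.PF.card_vec, le_div_iff₀ (pow_pos hq _), mul_comm]
    exact h1
  · have hc : 0 < 1 - 2 / (Nat.card k : ℚ) := by
      rw [sub_pos, div_lt_one hq]
      exact_mod_cast h2q
    refine Pool.Agent.U407.PF.average_mid (A := kˣ × kˣ) (B := D → k)
      (ρ := fun m => (ρ m : ℚ)) (K := ((p ^ r * (p - 1) : ℕ) : ℚ)) (fun α : Fin b → k => Squarefree (Pool.Agent.U407.PF.mon α)) (pow_pos hq b) hc
      (Finset.sum_nonneg fun i _ => by positivity) (Pool.Agent.U407.PF.card_sqf hb)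
      (fun α => ((UniqueFactorizationMonoid.factors (Pool.Agent.U407.PF.mon α)).card : ℚ))
      (Pool.Agent.U407.PF.sum_sqf b) (Nat.cast_nonneg _) fun m hm => ?_
    obtain ⟨hL1, M, hLM, hM⟩ := hL m hm
    exact hcast _ m (ρ m) (hpw m hm r (h m) (hh m) (L m) hL1 (ρ m) M hLM hM).1
  · refine (Pool.Agent.U407.PF.card_irr_ge (κ := k) hb).trans ?_
    rw [← Pool.Agent.U407.PF.proportion_mid (A := kˣ × kˣ) (B := D → k)]
    refine Pool.Agent.U407.PF.proportion_le fun m hm r h L hh hL => ?_
    have hL0 : L ≠ 0 := by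
      intro h0
      have h1 := hL.1
      rw [h0, coeff_zero] at h1
      exact zero_ne_one h1
    obtain ⟨ρ, M, hLM, hMe⟩ := Pool.Agent.U407.LF.exists_order hq.ne' hL0
    obtain ⟨h5, h6⟩ := hpw m hm.squarefree r h hh L hL ρ M hLM hMe
    rw [Pool.Agent.U407.LF.card_factors_eq_one hm, Nat.sub_self, mul_zero] at h5 h6
    have hρ0 : ρ = 0 := Nat.le_zero.1 h5
    subst hρ0
    rw [pow_zero, one_mul] at hLM
    rw [hLM]
    exact ⟨hMe, h6.2 rfl⟩

end Pool.Agent.Results.MP_89bcae_ag.NormalOrderOfTateClasses
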