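import Pool.Agent.U840.DPC.Main

/-!
# Covers of the plane with small branch curves are dominated by products of two curves

`k` is an algebraically closed field of any characteristic, `f i` (`i ∈ ι`, finite) are plane curves of degrees
`d i`: arbitrary, possibly singular, reducible or with common components. `n ≥ 1` is any integer, and we adjoin
to the function field `k(x, y)` of the plane the `n`-th roots of the functions `∏ i, f i (x, y, 1) ^ a i`.
There is no condition on the geometric genus of the covers.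

(1) If the sum of the degrees is at most `4`, then one product of two curves dominates the cover obtained by
adjoining these `n`-th roots for all exponents `a` for which `n` divides the total degree `∑ d i * a i` (every
function of the form `∏ i, f i (x, y, 1) ^ a i` is of this kind if the line at infinity is one of the `f i`).

(2) The same holds without any condition on the degrees if there is a point `v` of the plane such that the lines
through `v` meet the curves in at most two points besides `v`, with multiplicities: here the polynomials `f i (u + T v)` in `T`, for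
all vectors `u`, have degrees at most `e i`, and `∑ e i ≤ 2`.

(3) If `∑ e i ≤ 3`, the same holds for all `a` for which `n` divides `∑ d i * a i` and `∑ e i * a i`.

(4) Every quartic surface `w ^ 4 = F (x, y, z)`, `F ≠ 0` a form of degree four, is dominated by a product of two
curves.

(5) Every surface `z ^ n = F (x, y, 1)`, `F ≠ 0` a form of degree three, is dominated by a product of two curves.
-/

namespace Pool.Agent.Results.MP_89bcae_ag.SmallBranchCurves

open MvPolynomial Pool.Agent.U840.DPC

theorem result (k : Type) [Field k] [IsAlgClosed k] :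
    (∀ (ι : Type) [Fintype ι] (n : ℕ), n ≠ 0 →
      ∀ (f : ι → MvPolynomial (Fin 3) k) (d : ι → ℕ), (∀ i, IsPlaneCurve (f i) (d i)) →
      ((∑ i, d i ≤ 4 → CoverDominated n f {a | n ∣ ∑ i, d i * a i}) ∧
        ∀ v : Fin 3 → k, v ≠ 0 → ∀ e : ι → ℕ,
          (∀ (i : ι) (u : Fin 3 → k),
            (aeval (fun j => Polynomial.C (u j) + Polynomial.X * Polynomial.C (v j)) (f i) :
              Polynomial k).natDegree ≤ e i) →
          (∑ i, e i ≤ 2 → CoverDominated n f {a | n ∣ ∑ i, d i * a i}) ∧
          (∑ i, e i ≤ 3 → CoverDominated n f {a | n ∣ ∑ i, d i * a i ∧ n ∣ ∑ i, e i * a i}))) ∧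
    (∀ F : MvPolynomial (Fin 3) k, F.IsHomogeneous 4 → F ≠ 0 →
      ∃ (Ω : Type) (_ : Field Ω) (_ : Algebra k Ω) (K₁ K₂ : IntermediateField k Ω),
        IsProductOfCurves K₁ K₂ ∧ ∃ x ∈ K₁ ⊔ K₂, ∃ y ∈ K₁ ⊔ K₂, ∃ z ∈ K₁ ⊔ K₂,
          AlgebraicIndependent k ![x, y] ∧ z ^ 4 = aeval ![x, y, 1] F) ∧
    (∀ n : ℕ, n ≠ 0 → ∀ F : MvPolynomial (Fin 3) k, F.IsHomogeneous 3 → F ≠ 0 →
      ∃ (Ω : Type) (_ : Field Ω) (_ : Algebra k Ω) (K₁ K₂ : IntermediateField k Ω),
        IsProductOfCurves K₁ K₂ ∧ ∃ x ∈ K₁ ⊔ K₂, ∃ y ∈ K₁ ⊔ K₂, ∃ z ∈ K₁ ⊔ K₂,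
          AlgebraicIndependent k ![x, y] ∧ z ^ n = aeval ![x, y, 1] F) := by
  refine ⟨?_, ?_, ?_⟩
  · intro ι _ n hn f d hf
    refine ⟨fun hd => total_four hn hf hd, fun v hv e hdeg => ⟨fun he => ?_, fun he => ?_⟩⟩
    · exact small_branch hn (fun i => (hf i).homogeneous) hv hdeg he
    · exact small_branch_three hn (fun i => (hf i).homogeneous) hv hdeg he
  · intro F hF hF0
    obtain ⟨Ω, i1, i2, K₁, K₂, hK, x, hx, y, hy, hxy, h⟩ := total_four (n := 4) (by norm_num)
      (f := fun _ : Unit => F) (d := fun _ => 4) (fun _ => ⟨by norm_num, hF, hF0⟩) (by simp)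
    obtain ⟨z, hz, hzn⟩ := h (fun _ => 1) (by simp)
    exact ⟨Ω, i1, i2, K₁, K₂, hK, x, hx, y, hy, z, hz, hxy, by simpa using hzn⟩
  · intro n hn F hF hF0
    obtain ⟨Ω, i1, i2, K₁, K₂, hK, x, hx, y, hy, hxy, h⟩ := total_four (n := n) hn
      (f := ![F, X 2]) (d := ![3, 1]) (by
        intro i
        fin_cases i
        · exact ⟨by norm_num, hF, hF0⟩
        · exact ⟨by norm_num, isHomogeneous_X k 2, X_ne_zero _⟩) (by simp)
    obtain ⟨z, hz, hzn⟩ := h ![1, 3 * n - 3] (by
      show n ∣ _
      rw [Fin.sum_univ_two]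
      simp only [Matrix.cons_val_zero, Matrix.cons_val_one]
      refine ⟨3, ?_⟩
      have : 0 < n := Nat.pos_of_ne_zero hn
      omega)
    refine ⟨Ω, i1, i2, K₁, K₂, hK, x, hx, y, hy, z, hz, hxy, ?_⟩
    rw [hzn, Fin.prod_univ_two]
    simp

end Pool.Agent.Results.MP_89bcae_ag.SmallBranchCurves
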