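import Pool.Agent.U273.FS.TateMain

/-!
# Tate classes of surfaces with an automorphism, bounded modulo `p` at one place

Let `k` be a finitely generated field (of any characteristic), `𝒳` a smooth projective surface over `k`
and `σ` **any automorphism of `𝒳` over `k` of order `p ^ (s + 1)`**, `p` any prime number. Put
`τ = σ ^ (p ^ s)`, of order `p`, and suppose that `τ` acts trivially on `H^1` and `H^3` (for example
`b_1(𝒳) = b_1(𝒳 / τ)`). Let `v` be **one closed point** of a model of `k` at which `(𝒳, σ)` has good reduction,
with residue field `κ` of `q` elements, `p ∤ q`, and let `X` be the special fibre. Let `U` be the open set of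
the points of `X` not fixed by `τ`, and `P₁ / P₂` the zeta function of `U / σ`. Put `H = P₂ / P₁` **modulo `p`**;
it is a polynomial.

**Theorem.** Let `b` be a bound for the *cyclotomic degree* of `H`: every product of cyclotomic polynomials
`Φ_m(q T)`, `m` prime to `p`, which divides `H` in `𝔽_p[T]`, has degree at most `b`. Then

1. for every finite extension `L` of `k` the dimension of the space `H²(𝒳, E(1))^{G_L}` of Tate classes is at
   most the dimension of its subspace of `τ`-invariant classes plus `p ^ s (p - 1) b`;
2. the geometric Picard number of `𝒳` is at most the rank of the `τ`-invariant part plus `p ^ s (p - 1) b`;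
3. if there is equality in 2., or **if `b ≤ 1` and there is a single divisor class on `𝒳` (over the algebraic
   closure) which is not invariant under `τ`**, then **for every finite extension `L` of `k` Tate's conjecture
   Q1 for `𝒳_L` is equivalent to Q1 for the quotient `𝒳_L / τ`** (all `τ`-invariant Tate classes over `L`
   come from divisors). It is true if `𝒳 / τ` is a rational or an abelian surface, or is covered by a product
   of curves.

4. For the `p`-fold planes `w ^ p = f(x, y, z)` with a smooth branch curve `B`, with `P_B` the characteristic
polynomial of Frobenius on `H^1(B)` at `v`, one has `H = (1 - q² T) P_B` and `q = 1` modulo `p`; so `b = 1` as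
soon as no cyclotomic polynomial `Φ_m`, `p ∤ m`, divides `P_B` modulo `p`, a condition on the Frobenius
module `Jac(B)[p]` at one place. Then the geometric Picard number is `1` or `p`, and if a single curve
splits in the covering then it is `p`, and Q1 is true for `𝒳` over every finite extension `L` of `k`, whatever the
geometric genus. For `p = 2` these are for example the double planes `w² = g² + l h` with
a line `l`.

The proof. Let `V_ω` be the eigenspace of `σ` in `H²` for a primitive root of unity `ω` of order
`p ^ (s + 1)`. Modulo a place above `p` the polynomial `det(1 - F T | V_ω)` is `H` (`U273/FS/Aut`,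
`U273/FS/AutP`, `U273/FS/AutMain`: classes of the Frobenius cycles in `ℤ / p ^ (s + 1)`). A Tate class over an
extension gives an eigenvalue `q ξ` of `F` with a root of unity `ξ`. The traces of `F ^ n` on `V_ω` lie in
`ℤ[ω]`, so the eigenvalues are permuted by the automorphisms of the algebraic numbers which fix the roots of
unity of `p`-power order; these raise the prime-to-`p` part of `ξ` to arbitrary powers prime to the order;
modulo the place the `p`-power part of `ξ` is `1`. Hence **the product of the factors `1 - q ξ T` for all
the eigenvalues of this kind becomes a product of complete cyclotomic polynomials `Φ_m(q T)`, `p ∤ m`,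
modulo `p`** (`U273/FS/CycA`, `U273/FS/CycB`), and their number is at most `b` for each of the
`p ^ s (p - 1)` characters `ω`. Finally a nonzero divisor class in the primitive part generates, under `σ`, a
space of dimension `p ^ s (p - 1)`, since `Φ_(p^(s+1))` is irreducible (`U273/FS/TateMain`).

In the Lean statement the special fibre is an actual scheme with its geometric points; its cohomology
enters through the trace formula for the compositions of powers of Frobenius and `σ` (`IsCohomology`). The
Galois group `G` of `k` acts on the same space `H²` (`GaloisAction`; smooth and proper base change), with a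
Frobenius element `F`, and the divisor classes form a subgroup. The finite extensions `L` are the subgroups of
finite index.

Earlier work. Van Luijk's method bounds the Picard number by the full characteristic polynomial of
Frobenius on `H²` of the surface at one or several places; here the zeta function of `U / σ` modulo `p` (so for
planes that of a curve modulo `p`) is enough. The congruence between the zeta functions is used in the
starting library (`CyclicHypersurfaces` and others, project HS) for the semisimplicity of Frobenius, with
squarefree `H`, for coverings of projective spaces.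
-/

set_option autoImplicit false

open CategoryTheory AlgebraicGeometry Polynomial

namespace Pool.Agent.Results.MP_89bcae_ag.TateClassesModP

open Pool.Agent.U273.FS

/-- **One place and one divisor.** -/
theorem result {κ : Type} [Field κ] [Fintype κ] {E : Type} [Field E] [CharZero E] [IsAlgClosed E]
    {p s : ℕ} (hp : p.Prime) (hq : ¬ p ∣ Fintype.card κ) {X : Scheme.{0}}
    (π : X ⟶ Spec (CommRingCat.of κ)) [IsProper π] (σ : X ⟶ X) (hσ : σ ≫ π = π)
    (hord : power σ (p ^ (s + 1)) = 𝟙 X) (D : CohomologyGroups E)
    (hD : D.IsCohomology π σ hσ (p ^ (s + 1))) (htop : D.top = 4)
    (htriv : TrivialOutsideTwo D (p ^ s)) (P₁ P₂ : ℤ[X])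
    (hP : HasQuotientZeta E π σ hσ (p ^ s) (p ^ (s + 1)) P₁ P₂) (H : (ZMod p)[X])
    (hH : IsQuotientMod p H P₁ P₂) {G : Type} [Group G]
    (S : GaloisAction D (Fintype.card κ) G) :
    (∀ b : ℕ, CyclotomicDegreeLE p (Fintype.card κ) H b →
      (∀ U : Subgroup G, U.FiniteIndex →
        S.tateNumber U ≤ S.tateNumberQuotient (p ^ s) U + p ^ s * (p - 1) * b) ∧
      S.picardNumber ≤ S.picardNumberQuotient (p ^ s) + p ^ s * (p - 1) * b ∧
      (S.picardNumberQuotient (p ^ s) + p ^ s * (p - 1) * b ≤ S.picardNumber ∨
        b ≤ 1 ∧ S.HasMovedDivisor (p ^ s) →
        ∀ U : Subgroup G, U.FiniteIndex →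
          (S.TateHolds U ↔ S.TateHoldsForQuotient (p ^ s) U))) ∧
    (∀ P : ℤ[X], ((Fintype.card κ : ℕ) : ZMod p) = 1 → NoCyclotomicFactor p P →
      IsZetaOfPlaneComplement (Fintype.card κ) P₁ P₂ P →
      CyclotomicDegreeLE p (Fintype.card κ) H 1) := by
  refine ⟨fun b hb => tate_mod hp hq π σ hσ hord D hD (by omega) htriv P₁ P₂ hP H hH b hb S, ?_⟩
  rintro P hq1 hPc ⟨rfl, rfl⟩
  exact planes_cyc hp hq1 P hPc H hH

end Pool.Agent.Results.MP_89bcae_ag.TateClassesModP
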